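import Pool.Agent.Q113.XU.Stm

/-!
# Job XU-NCL of helper113
-/

set_option autoImplicit false
set_option linter.all false

namespace Pool.Agent.Q176.XU

open Finset Pool.Agent.Q54.EM Pool.Agent.Q113.XU Filter Topology

theorem ff_cont (q : ℝ) (h0 : 0 < q) (h1 : q < 1) : ContinuousAt ff q := by
  unfold ff
  apply ContinuousAt.div _ continuousAt_id h0.ne'
  apply ContinuousAt.neg
  apply ContinuousAt.log _ (by linarith)
  exact continuousAt_const.sub continuousAt_id

theorem t_NCL : S_NCL := by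
  intro k r l h w W L H w0 hN hl hh hw hW
  have N0 := hN 0
  have hk6 := N0.k6
  have hrc := N0.rc
  have hk : (0 : ℝ) < k := by exact_mod_cast (by omega : 0 < k)
  have hr0 : 0 < r := hrc.1
  have hr1 : r < 1 := hrc.2.1
  have hkr : 0 < k * (1 - r) := mul_pos hk (by linarith)
  -- `r < L`
  have hL1 : k * (1 - r) ≤ L - r := by
    apply ge_of_tendsto' (hl.sub_const r)
    intro j
    have Nj := hN j
    have h1 : 0 < 1 - r / l j := by
      have : r / l j < 1 := by rw [div_lt_one Nj.l0]; exact Nj.ql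
      linarith
    have h2 : (1 - r / l j) * h j ≤ (1 - r / l j) * l j := mul_le_mul_of_nonneg_left Nj.hl h1.le
    have h3 : (1 - r / l j) * l j = l j - r := by
      have := Nj.l0.ne'
      field_simp
    linarith [Nj.LH]
  have hrL : r < L := by linarith
  have hL0 : 0 < L := by linarith
  have hH1 : k * (1 - r) ≤ H := by
    apply ge_of_tendsto' hh
    intro j
    have Nj := hN j
    have h1 : 0 ≤ r / l j := div_nonneg hr0.le Nj.l0.le
    have h2 : (1 - r / l j) * h j ≤ h j := by nlinarith [Nj.h0]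
    linarith [Nj.LH]
  have hH0 : 0 < H := by linarith
  have hT0 : 0 < 1 - r ^ k := by
    have : r ^ k < 1 := pow_lt_one₀ hr0.le hr1 (by omega)
    linarith
  -- limits
  have tq : Tendsto (fun j => r / l j) atTop (𝓝 (r / L)) := tendsto_const_nhds.div hl hL0.ne'
  have tq1 : Tendsto (fun j => 1 - r / l j) atTop (𝓝 (1 - r / L)) := tq.const_sub 1
  have tlh : Tendsto (fun j => l j / h j) atTop (𝓝 (L / H)) := hl.div hh hH0.ne'
  have thk : Tendsto (fun j => 1 - h j / k) atTop (𝓝 (1 - H / k)) := (hh.div_const (k : ℝ)).const_sub 1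
  have ty : Tendsto (fun j => 1 - k * (1 - r) / h j) atTop (𝓝 (1 - k * (1 - r) / H)) :=
    (tendsto_const_nhds.div hh hH0.ne').const_sub 1
  have hqL0 : 0 < r / L := div_pos hr0 hL0
  have hqL1 : r / L < 1 := by rw [div_lt_one hL0]; exact hrL
  have tf : Tendsto (fun j => ff (r / l j)) atTop (𝓝 (ff (r / L))) :=
    (ff_cont _ hqL0 hqL1).tendsto.comp tq
  have tlog : Tendsto (fun j => - Real.log (W j)) atTop (𝓝 (- Real.log (1 - r ^ k))) :=
    ((Real.continuousAt_log hT0.ne').tendsto.comp hW).neg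
  have tB : Tendsto (fun j => (1 - h j / k) + (k - 1) * (r - (1 - h j / k))) atTop
      (𝓝 ((1 - H / k) + (k - 1) * (r - (1 - H / k)))) :=
    thk.add ((thk.const_sub r).const_mul (k - 1 : ℝ))
  have tql : Tendsto (fun j => (1 - r / l j) * l j) atTop (𝓝 ((1 - r / L) * L)) := tq1.mul hl
  refine ⟨hk6, hrc, hrL, hH0, ?_, ?_, ?_, ?_, ?_, ?_, ?_, ?_, ?_, ?_⟩
  · exact le_of_tendsto_of_tendsto' hh hl (fun j => (hN j).hl)
  · exact le_of_tendsto' hh (fun j => (hN j).hk)
  · have h1 : Tendsto W atTop (𝓝 (w0 * (1 - r / L))) := by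
      have h2 : Tendsto (fun j => w j * (1 - r / l j)) atTop (𝓝 (w0 * (1 - r / L))) := hw.mul tq1
      refine h2.congr (fun j => ?_)
      exact (hN j).w1e.symm
    exact tendsto_nhds_unique hW h1
  · exact le_of_tendsto' hw (fun j => (hN j).w11)
  · exact ge_of_tendsto' (tq1.mul hh) (fun j => (hN j).LH)
  · refine le_of_tendsto_of_tendsto' (tq1.mul (thk.sub (((tq1.sqrt.const_sub 1).pow 2).const_mul (k : ℝ))))
      (hl.sub hh) (fun j => (hN j).XX)
  · by_cases hf : ∃ᶠ j in atTop, (1 - r / l j) * l j ≤ (1 - h j / k) + (k - 1) * (r - (1 - h j / k))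
    · right
      have t1 : Tendsto (fun j => (1 - r / l j) * l j * (1 - h j / k) ^ 2 -
          r * (l j - h j) * ((1 - h j / k) + (k - 1) * (r - (1 - h j / k)))) atTop
          (𝓝 ((1 - r / L) * L * (1 - H / k) ^ 2 -
          r * (L - H) * ((1 - H / k) + (k - 1) * (r - (1 - H / k))))) :=
        (tql.mul (thk.pow 2)).sub (((hl.sub hh).const_mul r).mul tB)
      have h1 := le_of_tendsto_of_frequently (b := 0) t1 (hf.mono (fun j hj => by
        have := (hN j).P0 hj
        linarith))
      linarith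
    · left
      rw [not_frequently] at hf
      have t1 : Tendsto (fun j => (1 - h j / k) + (k - 1) * (r - (1 - h j / k)) -
          (1 - r / l j) * l j) atTop (𝓝 ((1 - H / k) + (k - 1) * (r - (1 - H / k)) -
          (1 - r / L) * L)) := tB.sub tql
      have h1 := le_of_tendsto (b := 0) t1 (hf.mono (fun j hj => by
        push Not at hj
        linarith))
      linarith
  · refine le_of_tendsto_of_tendsto' ((hw.const_sub 1).const_mul r |>.const_add (k * (1 - r)))
      (hW.mul hh) (fun j => (hN j).E3)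
  · exact le_of_tendsto_of_tendsto' tlog (ty.mul tf) (fun j => (hN j).TA)
  · intro c nu hc hc2 p1 p2 p3 p4 p5 p6
    have e1 : ∀ᶠ j in atTop, r / l j < 1 / 2 := tq.eventually_lt_const p1
    have e2 : ∀ᶠ j in atTop, r / l j * (l j / h j) * c < 1 :=
      ((tq.mul tlh).mul_const c).eventually_lt_const p2
    have e3 : ∀ᶠ j in atTop, (1 - r / l j) * (l j / h j) < nu * (1 - r / l j * (l j / h j) * c) :=
      (tq1.mul tlh).eventually_lt ((((tq.mul tlh).mul_const c).const_sub 1).const_mul nu) p3
    have e4 : ∀ᶠ j in atTop, c * ((l j / h j - 1) * (l j / h j) * (3 - r / l j) + r / l j) <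
        l j / h j - 1 :=
      (((((tlh.sub_const 1).mul tlh).mul (tq.const_sub 3)).add tq).const_mul c).eventually_lt
        (tlh.sub_const 1) p4
    have e5 : ∀ᶠ j in atTop, 1 < (1 - k * (1 - r) / h j) * (1 - nu * c) *
        (1 + (1 - r / l j) / (l j / h j)) :=
      ((ty.mul_const (1 - nu * c)).mul ((tq1.div tlh (by positivity)).const_add 1)).eventually_const_lt p5
    have e6 : ∀ᶠ j in atTop, r / l j < (1 - k * (1 - r) / h j) * (1 - nu * c) :=
      tq.eventually_lt (ty.mul_const (1 - nu * c)) p6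
    have tR : Tendsto (fun j => (1 - k * (1 - r) / h j) * ff (r / l j) - (1 - r / l j) *
      (1 - k * (1 - r) / h j) * (l j / h j - 1) * c / 2 *
        ((1 - k * (1 - r) / h j) * (1 - nu * c / 3) - r / l j)) atTop
        (𝓝 ((1 - k * (1 - r) / H) * ff (r / L) - (1 - r / L) *
      (1 - k * (1 - r) / H) * (L / H - 1) * c / 2 *
        ((1 - k * (1 - r) / H) * (1 - nu * c / 3) - r / L))) :=
      (ty.mul tf).sub ((((((tq1.mul ty).mul (tlh.sub_const 1)).mul_const c).div_const 2)).mul
        ((ty.mul_const (1 - nu * c / 3)).sub tq))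
    refine le_of_tendsto_of_tendsto tlog tR ?_
    filter_upwards [e1, e2, e3, e4, e5, e6] with j h1 h2 h3 h4 h5 h6
    exact (hN j).PL c nu hc hc2.le h1.le h2 h3.le h4.le h5.le h6.le

end Pool.Agent.Q176.XU
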