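import Pool.Agent.Q113.XU.Stm

/-!
# Job XU-ZTL of helper113
-/

set_option autoImplicit false
set_option linter.all false

namespace Pool.Agent.Q176.XU

open Finset Pool.Agent.Q54.EM Pool.Agent.Q113.XU

theorem t_ZTL : S_CS → S_SER → S_BXA → S_BXC → S_BXD → S_NTL → S_EBs → S_E18s → S_BPs → S_BXBs →
    S_PLSL → S_ZTL := by
  intro hCS hSER hBXA hBXC hBXD hNT hEB hE18 hBP hBXB hPLS k r l h w1 hN hq62
  by_contra hl
  push Not at hl
  obtain ⟨q, hq⟩ : ∃ q, q = r / l := ⟨_, rfl⟩
  obtain ⟨a, ha⟩ : ∃ a, a = r / k := ⟨_, rfl⟩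
  obtain ⟨c, hc⟩ : ∃ c, c = k * (1 - r) / r := ⟨_, rfl⟩
  obtain ⟨t, ht⟩ : ∃ t, t = 1 - l / k := ⟨_, rfl⟩
  obtain ⟨e, he⟩ : ∃ e, e = l / h - 1 := ⟨_, rfl⟩
  obtain ⟨x, hx⟩ : ∃ x, x = h / r := ⟨_, rfl⟩
  obtain ⟨B, hB⟩ : ∃ B, B = 1 - c * (1 - c * a - a) + (1 - c * a - 2 * a) * x := ⟨_, rfl⟩
  obtain ⟨n1, n2, n3, n4, n5, n6, n7, n8, n9, n10, n11, n12, n13, n14, n15, n16, n17⟩ :=
    hNT k r l h w1 q a c t e x B hN hq ha hc ht he hx hB
  obtain ⟨c1, c2, c3, c4, c5, c6, c7, c8, c9⟩ := hCS k r hN.k6 hN.rc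
  rw [← ha] at c1 c2 c3 c7
  rw [← hc] at c3 c4 c7
  have hk : (0 : ℝ) < k := by
    have := hN.k6
    exact_mod_cast (by omega : 0 < k)
  have ht2 : 2 / 10 ≤ t := by
    rw [ht]
    have : l / k ≤ 8 / 10 := by
      rw [div_le_iff₀ hk]
      linarith
    linarith
  rw [← hq] at hq62
  have hc0 : 458 / 1000 ≤ c := by linarith
  rcases le_or_gt q (37 / 100) with hq37 | hq37
  · have hS := hSER q t c n3 (by linarith) (by linarith) n7 (by linarith) (by linarith)
    have hDp := hS.2.2.1 e n6
    rw [← n2] at hDp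
    have hEB' := hEB q t c e n3 hq37 (by linarith) n7 (by linarith) (by rw [← n2]; exact c3) c4
      (by rw [← n2]; exact c2) n6 (by rw [← n2]; exact n13)
    rcases le_or_gt q (3 / 10) with hq3 | hq3
    · have hP := hPLS k r l h w1 q a c t e hN hq ha hc ht he hq3 hEB'.1
      rcases le_or_gt t (7 / 10) with ht7 | ht7
      · have := hBXA q t c e n3 hq3 ht2 ht7 (by rw [← n2]; exact c2) (by rw [← n2]; exact c3) c4 n6
          hEB'.1 (by rw [← n2]; exact n14)
        linarith
      · have := hBXB q t c e n3 hq3 ht7.le n7 (by rw [← n2]; exact c2) (by rw [← n2]; exact c3) c4 n6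
          hEB'.1 (by
            rw [← n2]
            rcases n16 with hp | hp
            · right
              have h1 : q * B = q * (1 - c * (1 - c * a - a)) + (1 - c * a - 2 * a) / (1 + e) := by
                rw [hB, n8]
                have : (0 : ℝ) < 1 + e := by linarith
                field_simp
              rw [h1] at hp
              exact hp
            · exact Or.inl hp)
        linarith
    · have h18 := hE18 q t c e hq3.le hq37 (by linarith) n7 (by rw [← n2]; exact c3) c4
        (by rw [← n2]; exact c2) n6 (by rw [← n2]; exact n13)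
      have ht48 : 48 / 100 ≤ t := by
        by_contra h1
        push Not at h1
        have h2 : 3 / 10 * (52 / 100) ≤ q * (1 - t) := by
          apply mul_le_mul hq3.le (by linarith) (by norm_num) n3.le
        rw [← n2] at h2
        linarith
      have hx18 : 1 / (q * (118 / 100)) ≤ x := by
        rw [n8]
        apply one_div_le_one_div_of_le (by positivity)
        gcongr
        linarith
      have hpre := hBP q a c x n3 n4 n5.le c2 c3 c4 (Or.inl ⟨hq37, hq3.le, hx18⟩)
      rw [← hB] at hpre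
      have h16 := n16.resolve_left (by linarith)
      have := hBXC q t c e hq3.le hq37 ht48 n7 (by rw [← n2]; exact c2) (by rw [← n2]; exact c3) c4 n6
        hEB'.1 (by rw [← n2]; exact h16)
      linarith
  · have hx0 : 3963 / 1000 + 39 / 100 * a - 1 / (1 - q) ≤ x := by linarith
    have hpre := hBP q a c x n3 n4 n5.le c2 c3 c4 (Or.inr (Or.inl ⟨hq37.le, hq62, hx0⟩))
    rw [← hB] at hpre
    have h1 := n15.resolve_left (by linarith)
    have h2 := hBXD q a c x hq37.le hq62 n5.le c2 c3 c4 hx0 n12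
    rw [← hB] at h2
    linarith

end Pool.Agent.Q176.XU
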